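import Pool.Agent.Helper3.FC.Goals

/-! Packet FC-F12: the copies and the class X. -/

set_option autoImplicit false

namespace Pool.Agent.Helper52.FC.F12

open scoped Classical BigOperators
open Pool.Agent.Helper3.FC

variable {m n w kz L : ℕ} {η : ℝ} (W : World m n w kz L η)

lemma a_nonneg (l : Fin n) (k : Fin w) : 0 ≤ W.a l k := by
  unfold World.a
  apply div_nonneg
  · apply Finset.sum_nonneg
    intro j hj
    exact W.y0_nonneg j (Finset.mem_range.1 hj) l k
  · exact Nat.cast_nonneg L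

lemma a_le_one (l : Fin n) (k : Fin w) : W.a l k ≤ 1 := by
  unfold World.a
  apply div_le_one_of_le₀
  · calc ∑ j ∈ Finset.range L, W.y0 j l k ≤ ∑ j ∈ Finset.range L, (1 : ℝ) := by
          apply Finset.sum_le_sum
          intro j hj
          exact W.y0_le j (Finset.mem_range.1 hj) l k
      _ = L := by simp
  · exact Nat.cast_nonneg L

lemma R_nonneg (g : ∀ l, W.J l) : 0 ≤ W.R g := Finset.prod_nonneg (fun l _ => W.ρ_nonneg l _)

lemma R_sum : ∑ g, W.R g = 1 := by
  have h := Finset.prod_univ_sum (fun _ => Finset.univ) (fun l (i : W.J l) => W.ρ l i)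
  rw [Fintype.piFinset_univ] at h
  unfold World.R
  rw [← h]
  simp [W.ρ_sum]

lemma R_free : ∑ g : ∀ l, W.J l, W.R g * (if ∀ l, W.F l (g l) then 1 else 0) = ∏ l, W.f l := by
  have h := Finset.prod_univ_sum (fun _ => Finset.univ)
    (fun l (i : W.J l) => if W.F l i then W.ρ l i else 0)
  rw [Fintype.piFinset_univ] at h
  unfold World.f
  rw [h]
  apply Finset.sum_congr rfl
  intro g _
  by_cases hg : ∀ l, W.F l (g l)
  · rw [if_pos hg, mul_one]
    unfold World.R
    apply Finset.prod_congr rfl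
    intro l _
    rw [if_pos (hg l)]
  · rw [if_neg hg, mul_zero]
    push Not at hg
    obtain ⟨l, hl⟩ := hg
    symm
    apply Finset.prod_eq_zero (Finset.mem_univ l)
    rw [if_neg hl]

lemma f_nonneg (l : Fin n) : 0 ≤ W.f l := by
  unfold World.f
  apply Finset.sum_nonneg
  intro i _
  split_ifs
  · exact W.ρ_nonneg l i
  · exact le_refl _

lemma f_le (l : Fin n) : W.f l ≤ Real.exp (-∑ k, W.a l k) := by
  have h : W.f l = ∏ k, (1 - W.a l k) := W.F_mass l
  rw [h, ← Finset.sum_neg_distrib, Real.exp_sum]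
  apply Finset.prod_le_prod
  · intro k _
    have := a_le_one W l k
    linarith
  · intro k _
    have := Real.add_one_le_exp (-W.a l k)
    linarith

lemma prod_f_le : ∏ l, W.f l ≤ Real.exp (-∑ l, ∑ k, W.a l k) := by
  rw [← Finset.sum_neg_distrib, Real.exp_sum]
  exact Finset.prod_le_prod (fun l _ => f_nonneg W l) (fun l _ => f_le W l)

lemma YX_bd (j : ℕ) (hj : j < L) : 0 ≤ W.YX j ∧ W.YX j ≤ 1 := by
  constructor
  · unfold World.YX
    exact Finset.sum_nonneg (fun g _ => mul_nonneg (R_nonneg W g) (W.yX_nonneg j hj g))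
  · rw [← R_sum W]
    unfold World.YX
    apply Finset.sum_le_sum
    intro g _
    have h1 := R_nonneg W g
    have h2 := W.yX_le j hj g
    nlinarith

lemma YX_chain (hη : 0 ≤ η) (hη1 : η ≤ 1) (j : ℕ) (hj : j < L) :
    W.YX j ≤ 2 * (∏ l, W.f l) * (1 - mix η W.YX j) ^ (2 * m) := by
  have h1 : ∀ g, W.R g * W.yX j g ≤
      W.R g * (2 * (if ∀ l, W.F l (g l) then 1 else 0) * (1 - mix η W.YX j) ^ (2 * m)) :=
    fun g => mul_le_mul_of_nonneg_left (W.yX_chain j hj g) (R_nonneg W g)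
  calc W.YX j ≤ ∑ g : ∀ l, W.J l, W.R g *
        (2 * (if ∀ l, W.F l (g l) then 1 else 0) * (1 - mix η W.YX j) ^ (2 * m)) :=
        Finset.sum_le_sum (fun g _ => h1 g)
    _ = 2 * (∑ g : ∀ l, W.J l, W.R g * (if ∀ l, W.F l (g l) then 1 else 0)) *
        (1 - mix η W.YX j) ^ (2 * m) := by
        rw [Finset.mul_sum, Finset.sum_mul]
        apply Finset.sum_congr rfl
        intro g _
        ring
    _ = _ := by rw [R_free]

lemma mix_le_one {η : ℝ} (h0 : 0 ≤ η) (h1 : η ≤ 1) (y : ℕ → ℝ) (j : ℕ)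
    (hy : ∀ i < j, 0 ≤ y i ∧ y i ≤ 1) : 0 ≤ mix η y j ∧ mix η y j ≤ 1 := by
  induction j with
  | zero => simp [mix]
  | succ j ih =>
    obtain ⟨h2, h3⟩ := ih (fun i hi => hy i (by omega))
    obtain ⟨h4, h5⟩ := hy j (by omega)
    constructor
    · simp only [mix]
      nlinarith
    · simp only [mix]
      nlinarith

lemma lam_pos_eta {m : ℕ} (h : 0 < Lam m) (h2 : Lam m < 1) : 0 ≤ pη m ∧ pη m ≤ 1 := by
  unfold pη
  constructor
  · positivity
  · linarith

theorem t (h : CBStmt) (hp : PARStmt) : F1 ∧ F2 := by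
  have hF1 : F1 := by
    obtain ⟨m₀, hm₀⟩ := h
    refine ⟨m₀, fun m hm => ?_⟩
    obtain ⟨L₀, hL₀⟩ := hm₀ m hm
    refine ⟨L₀, fun L hL W l k => ⟨a_nonneg W l k, ?_⟩⟩
    have h1 := hL₀ L hL 4 (by norm_num) (le_refl _) 0 (le_refl _) (fun j => W.y0 j l k)
      (fun j hj => ⟨W.y0_nonneg j hj l k, W.y0_le j hj l k⟩)
      (fun j hj => by
        have h2 := W.y0_chain j hj l k
        rw [zero_mul, neg_zero, Real.exp_zero, mul_one]
        exact h2)
    have h2 : (4 / ((4 : ℕ) : ℝ) * max 0 (1 - 0) + 1 / 10000 : ℝ) = 1 + 1 / 10000 := by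
      rw [sub_zero, max_eq_right zero_le_one]
      norm_num
    rw [h2] at h1
    exact h1
  refine ⟨hF1, ?_⟩
  obtain ⟨m₁, hm₁⟩ := hF1
  obtain ⟨m₂, hm₂⟩ := h
  obtain ⟨m₃, hm₃⟩ := hp (1 / 10000) (by norm_num)
  refine ⟨max (max m₁ m₂) (max m₃ 1), fun m hm => ?_⟩
  have e1 : m₁ ≤ m := le_trans (le_trans (le_max_left _ _) (le_max_left _ _)) hm
  have e2 : m₂ ≤ m := le_trans (le_trans (le_max_right _ _) (le_max_left _ _)) hm
  have e3 : m₃ ≤ m := le_trans (le_trans (le_max_left _ _) (le_max_right _ _)) hm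
  have e4 : 1 ≤ m := le_trans (le_trans (le_max_right _ _) (le_max_right _ _)) hm
  obtain ⟨L₁, hL₁⟩ := hm₁ m e1
  obtain ⟨L₂, hL₂⟩ := hm₂ m e2
  obtain ⟨p1, p2, p3, p4, p5, p6, p7, p8, p9, p10, p11, p12, p13, p14, p15⟩ := hm₃ m e3
  refine ⟨max L₁ L₂, fun L hL W => ?_⟩
  have hL1 : L₁ ≤ L := le_trans (le_max_left _ _) hL
  have hL2 : L₂ ≤ L := le_trans (le_max_right _ _) hL
  have ha := hL₁ L hL1 W
  -- the parameters
  obtain ⟨D, hD⟩ : ∃ D, D = Real.log (4 * m) := ⟨_, rfl⟩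
  have hD1 : 1 ≤ D := by
    rw [hD, Real.le_log_iff_exp_le (by positivity)]
    have h4 : (4 : ℝ) ≤ 4 * m := by
      have : (1 : ℝ) ≤ m := by exact_mod_cast e4
      linarith
    have := Real.exp_one_lt_d9
    linarith
  obtain ⟨S, hS⟩ : ∃ S, S = ∑ l, ∑ k, W.a l k := ⟨_, rfl⟩
  obtain ⟨N, hN⟩ : ∃ N : ℝ, N = pn m * pw m := ⟨_, rfl⟩
  have hN1 : 0 < N := by
    rw [hN]
    have h1 : (0 : ℝ) < pn m := by exact_mod_cast p1
    have h2 : (0 : ℝ) < pw m := by exact_mod_cast p2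
    positivity
  have hA : W.A = S / N := by rw [hS, hN]; rfl
  have hS0 : 0 ≤ S := by
    rw [hS]
    exact Finset.sum_nonneg (fun l _ => Finset.sum_nonneg (fun k _ => a_nonneg W l k))
  have hSN : S = N * W.A := by
    rw [hA]
    field_simp
  have hA0 : 0 ≤ W.A := by rw [hA]; positivity
  have hA1 : W.A ≤ Lam m * (1 + 1 / 10000) := by
    rw [hA, div_le_iff₀ hN1, hS, hN]
    calc ∑ l, ∑ k, W.a l k ≤ ∑ l : Fin (pn m), ∑ k : Fin (pw m), Lam m * (1 + 1 / 10000) :=
          Finset.sum_le_sum (fun l _ => Finset.sum_le_sum (fun k _ => (ha l k).2))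
      _ = Lam m * (1 + 1 / 10000) * (pn m * pw m) := by
          simp only [Finset.sum_const, Finset.card_univ, Fintype.card_fin, nsmul_eq_mul]
          ring
  obtain ⟨hη0, hη1⟩ := lam_pos_eta p4 (by linarith)
  -- the chain bound
  have hα0 : 0 ≤ S / D := by positivity
  have hX := hL₂ L hL2 2 (by norm_num) (by norm_num) (S / D) hα0 W.YX
    (fun j hj => YX_bd W j hj)
    (fun j hj => by
      refine (YX_chain W hη0 hη1 j hj).trans ?_
      have h1 : S / D * Real.log (4 * m) = S := by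
        rw [← hD]
        field_simp
      rw [h1]
      have h2 : 0 ≤ (1 - mix (pη m) W.YX j) ^ (2 * m) := by
        apply pow_nonneg
        have := (mix_le_one hη0 hη1 W.YX j (fun i hi => YX_bd W i (by omega))).2
        linarith
      have h3 := prod_f_le W
      rw [← hS] at h3
      nlinarith)
  have hX' : W.X ≤ Lam m * (4 / ((2 : ℕ) : ℝ) * max 0 (1 - S / D) + 1 / 10000) := hX
  have h14 : D / 2 ≤ N * Lam m + 1 / 10000 := by
    rw [hD, hN]
    exact p14
  have hcast : (4 / ((2 : ℕ) : ℝ) : ℝ) = 2 := by norm_num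
  rw [hcast] at hX'
  refine hX'.trans ?_
  rcases le_total (1 - S / D) 0 with h5 | h5
  · rw [max_eq_left h5]
    nlinarith
  · rw [max_eq_right h5]
    -- Lam (2 - 2 S/D + 1/10000) ≤ Lam (2 + 1/1000) - A
    have h6 : W.A * (D / 2) ≤ W.A * (N * Lam m + 1 / 10000) :=
      mul_le_mul_of_nonneg_left h14 hA0
    have h7 : W.A * (N * Lam m) = S * Lam m := by rw [hSN]; ring
    have h8 : W.A ≤ 2 * (S / D) * Lam m + 2 / 10000 * W.A := by
      have hD0 : 0 < D := by linarith
      have h9 : W.A * D ≤ 2 * S * Lam m + 2 / 10000 * W.A := by nlinarith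
      have h10 : W.A ≤ (2 * S * Lam m + 2 / 10000 * W.A) / D := by
        rw [le_div_iff₀ hD0]
        exact h9
      have h11 : (2 * S * Lam m + 2 / 10000 * W.A) / D =
          2 * (S / D) * Lam m + 2 / 10000 * W.A / D := by ring
      have h12 : 2 / 10000 * W.A / D ≤ 2 / 10000 * W.A := by
        apply div_le_self _ hD1
        positivity
      linarith
    nlinarith

end Pool.Agent.Helper52.FC.F12
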